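import Pool.Agent.U644.LT.PreDefs

/-!
# Log étale cohomology of log schemes over the standard log point over a finite field

`X` is a projective vertical log smooth fs log scheme over the standard log point over a finite field
with `q` elements (an object of the category of the problem), and `(H X).V` is the part of its log
étale cohomology (with coefficients in an algebraic closure `Ω` of `ℚ_ℓ`) on which the inertia part of
`G` acts unipotently, with a geometric Frobenius element `F` of `G` and the monodromy operator `N`. So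
`H^m(X)(r)^G` is the space of the `x` in `(H X).gr m` with `N x = 0` and `F x = q ^ r x`.
-/

set_option autoImplicit false

open Module TensorProduct

namespace Pool.Agent.U644.LT

universe u v w

open Pool.Agent.Y143 Pool.Agent.Y163.MW

section plain

variable {Ω : Type w} [Field Ω] {V V' V'' : Type v} [AddCommGroup V] [Module Ω V]
  [AddCommGroup V'] [Module Ω V'] [AddCommGroup V''] [Module Ω V'']

/-- The map `V'' → V` which sends `κ (x ⊗ y)` to `c(y) x`. -/
noncomputable def coef (κ : V ⊗[Ω] V' ≃ₗ[Ω] V'') (c : V' →ₗ[Ω] Ω) : V'' →ₗ[Ω] V :=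
  (TensorProduct.rid Ω V).toLinearMap ∘ₗ TensorProduct.map LinearMap.id c ∘ₗ κ.symm.toLinearMap

/-- `f A = A' f`. -/
def Intertwines (f : V →ₗ[Ω] V') (A : Module.End Ω V) (A' : Module.End Ω V') : Prop :=
  ∀ z, f (A z) = A' (f z)

/-- `ρ κ = id`. -/
def IsRetraction (κ : V →ₗ[Ω] V') (ρ : V' →ₗ[Ω] V) : Prop := ∀ z, ρ (κ z) = z

/-- `T (x ⊗ y) = N x ⊗ y + x ⊗ N' y`. -/
def IsLeibniz (N : Module.End Ω V) (N' : Module.End Ω V') (T : Module.End Ω (V ⊗[Ω] V')) : Prop :=
  ∀ x y, T (x ⊗ₜ y) = N x ⊗ₜ y + x ⊗ₜ N' y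

/-- `T (x ⊗ y) = F x ⊗ F' y`. -/
def IsTensor (F : Module.End Ω V) (F' : Module.End Ω V') (T : Module.End Ω (V ⊗[Ω] V')) : Prop :=
  ∀ x y, T (x ⊗ₜ y) = F x ⊗ₜ F' y

/-- `κ (x ⊗ y)` has degree `m + n` if `x` has degree `m` and `y` has degree `n`. -/
def Degrees (κ : V ⊗[Ω] V' →ₗ[Ω] V'') (gr : ℕ → Submodule Ω V) (gr' : ℕ → Submodule Ω V')
    (gr'' : ℕ → Submodule Ω V'') : Prop :=
  ∀ m n x y, x ∈ gr m → y ∈ gr' n → κ (x ⊗ₜ y) ∈ gr'' (m + n)

/-- The vectors in `S` which are killed by `N` and on which `F` is `c`. -/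
def inv (S : Submodule Ω V) (F N : Module.End Ω V) (c : Ω) : Submodule Ω V :=
  S ⊓ LinearMap.ker N ⊓ LinearMap.ker (F - c • LinearMap.id)

/-- A nondegenerate form with `B(F x, F y) = q ^ d B(x, y)`, such that the `gr m` and `gr m'` are
orthogonal unless `m + m' = 2 d` (Poincaré duality). -/
structure IsPoincare (q d : ℕ) (gr : ℕ → Submodule Ω V) (F : Module.End Ω V)
    (B : V →ₗ[Ω] V →ₗ[Ω] Ω) : Prop where
  nondeg : ∀ x, (∀ y, val B x y = 0) → x = 0
  orth : ∀ m m' x y, x ∈ gr m → y ∈ gr m' → m + m' ≠ 2 * d → val B x y = 0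
  frob : ∀ x y, val B (F x) (F y) = (q : Ω) ^ d * val B x y

/-- `x` has degree `m`, `F x = c x` and `N x = y`. -/
def At (gr : ℕ → Submodule Ω V) (F N : Module.End Ω V) (x y : V) (m : ℕ) (c : Ω) : Prop :=
  x ∈ gr m ∧ F x = c • x ∧ N x = y

/-- The cohomology of a log Tate curve: a basis `1, e₁, e₂, o` with `1` in degree 0, `e₁, e₂` in
degree 1 and `o` in degree 2, `N e₂ = e₁` and `N = 0` on the others, and `F = 1, 1, q, q` on them. -/
structure TateBasis (q : ℕ) (gr : ℕ → Submodule Ω V) (F N : Module.End Ω V)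
    (b : Basis (Fin 4) Ω V) : Prop where
  one : At gr F N (b 0) 0 0 1
  e₁ : At gr F N (b 1) 0 1 1
  e₂ : At gr F N (b 2) (b 1) 1 (q : Ω)
  o : At gr F N (b 3) 0 2 (q : Ω)

/-- The tensor product `V ⊗ V'`, with the Frobenius operator `F ⊗ F'` and the monodromy operator
`N ⊗ 1 + 1 ⊗ N'`, is a direct summand of `V''` with `F''` and `N''`. -/
def HasSummand (F N : Module.End Ω V) (F' N' : Module.End Ω V') (F'' N'' : Module.End Ω V'')
    (gr : ℕ → Submodule Ω V) (gr' : ℕ → Submodule Ω V') (gr'' : ℕ → Submodule Ω V'') : Prop :=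
  ∃ κ ρ T T', IsRetraction κ ρ ∧ IsTensor F F' T ∧ IsLeibniz N N' T' ∧ Intertwines κ T F'' ∧
    Intertwines κ T' N'' ∧ Intertwines ρ N'' T' ∧ Degrees κ gr gr' gr''

/-- The Frobenius element has the eigenvalue `β` on `S`. -/
def HasEigen (S : Submodule Ω V) (F : Module.End Ω V) (β : Ω) : Prop :=
  ∃ y ∈ S, y ≠ 0 ∧ F y = β • y

end plain

/-- The data: the objects `X`, their products, the log Tate curve `E`, the cohomology `H X`, the
Künneth isomorphism for the products with `E`, a basis of the cohomology of `E`, and the subspace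
`A X j` of `H^(2j)(X)` which is spanned by the Chern classes of `gr^j K_{0,lim}(X)`. -/
structure LogTheory (Ω : Type w) [Field Ω] where
  /-- the objects -/
  Obj : Type u
  /-- products over the log point -/
  prod : Obj → Obj → Obj
  /-- the log Tate curve -/
  E : Obj
  /-- the log étale cohomology -/
  H : Obj → Coh.{v, w} Ω
  /-- the Künneth isomorphism for the product with `E` -/
  κ : ∀ X, (H X).V ⊗[Ω] (H E).V ≃ₗ[Ω] (H (prod X E)).V
  /-- the basis of the cohomology of `E` -/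
  b : Basis (Fin 4) Ω (H E).V
  /-- the classes of `gr^j K_{0,lim}` -/
  A : ∀ X, ℕ → Submodule Ω (H X).V

variable {Ω : Type w} [Field Ω] [CharZero Ω]

namespace LogTheory

variable (T : LogTheory.{u, v, w} Ω)

/-- `X × E ^ t`. -/
def pw (X : T.Obj) : ℕ → T.Obj
  | 0 => X
  | t + 1 => T.prod (pw X t) T.E

/-- The coefficient of `e₂`: the map from the cohomology of `X × E` to the cohomology of `X`. -/
noncomputable def step (X : T.Obj) : (T.H (T.prod X T.E)).V →ₗ[Ω] (T.H X).V :=
  coef (T.κ X) (T.b.coord 2)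

/-- The coefficient of `e₂ ⊗ ⋯ ⊗ e₂`: the map `φ` from the cohomology of `X × E ^ t` to the
cohomology of `X`. (The evaluation at `e₁ ^ t` of the homomorphism on `Sym^t H^1(E)` which is given
by the Künneth component, with `H^1(E)` identified with the dual of `H^1(E)(1)`, up to sign.) -/
noncomputable def phi (X : T.Obj) : ∀ t, (T.H (T.pw X t)).V →ₗ[Ω] (T.H X).V
  | 0 => LinearMap.id
  | t + 1 => (phi X t).comp (T.step (T.pw X t))

/-- `H^m(X)(r)^G`. -/
def invariants (q : ℕ) (X : T.Obj) (m r : ℕ) : Submodule Ω (T.H X).V :=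
  inv ((T.H X).gr m) (T.H X).F (T.H X).N ((q : Ω) ^ r)

/-- The log Tate conjecture for `X` in degree `2 r`: `H^(2r)(X)(r)^G` is spanned by Chern
classes. -/
def LogTate (q : ℕ) (X : T.Obj) (r : ℕ) : Prop := T.invariants q X (2 * r) r ≤ T.A X r

/-- Q1 for `X`, `m`, `r`: the map `φ` from `gr^(m-r) K_{0,lim}(X × E^t)` to `H^m(X)(r)^G`,
`t = m - 2 r`, is surjective. -/
def PhiSurjective (q : ℕ) (X : T.Obj) (m r : ℕ) : Prop :=
  T.invariants q X m r ≤ (T.A (T.pw X (m - 2 * r)) (m - r)).map (T.phi X (m - 2 * r))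

/-- Kato's log `ℓ`-adic monodromy-weight conjecture for `X`. -/
def MonodromyWeight (q : ℕ) (X : T.Obj) : Prop := ∀ m, (T.H X).MWPure q m

/-- The operators of `X × Y` extend those of the tensor product, which is a direct summand. -/
def Summand (X Y : T.Obj) : Prop :=
  HasSummand (T.H X).F (T.H X).N (T.H Y).F (T.H Y).N (T.H (T.prod X Y)).F (T.H (T.prod X Y)).N
    (T.H X).gr (T.H Y).gr (T.H (T.prod X Y)).gr

/-- Poincaré duality for `X`. -/
def Poincare (q : ℕ) (X : T.Obj) : Prop :=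
  ∃ d B, IsPoincare q d (T.H X).gr (T.H X).F B

/-- The object `B` has the cohomology of a smooth projective variety with the log structure of the
point, and `β` is an eigenvalue of Frobenius on `H^j(B)`. -/
structure IsTwist (q : ℕ) (B : T.Obj) (j : ℕ) (β : Ω) : Prop where
  zero : (T.H B).N = 0
  weight : IsWeilNumber q j β
  eigen : HasEigen ((T.H B).gr j) (T.H B).F β

/-- The known properties. -/
structure Known (q : ℕ) : Prop where
  one_lt : 1 < q
  pre : ∀ X, IsPre (T.H X) q
  poincare : ∀ X, T.Poincare q X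
  summand : ∀ X Y, T.Summand X Y
  degree : ∀ X, KDegree (T.κ X) (T.H X).gr (T.H T.E).gr (T.H (T.prod X T.E)).gr
  frob : ∀ X, KMultiplicative (T.κ X) (T.H X).F (T.H T.E).F (T.H (T.prod X T.E)).F
  mono : ∀ X, KLeibniz (T.κ X) (T.H X).N (T.H T.E).N (T.H (T.prod X T.E)).N
  tate : TateBasis q (T.H T.E).gr (T.H T.E).F (T.H T.E).N T.b
  chern : ∀ X j, T.A X j ≤ T.invariants q X (2 * j) j
  integral : ∀ X m α, HasEigen ((T.H X).gr m) (T.H X).F α → IsIntegral ℤ α
  hondaTate : ∀ (w : ℤ) (α : Ω), IsWeilNumber q w α → IsIntegral ℤ α →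
    ∃ B j β r, T.IsTwist q B j β ∧ α * β = (q : Ω) ^ r

end LogTheory

end Pool.Agent.U644.LT
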