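import Pool.Agent.Y163.MW.Defs

/-!
# Cohomology with Frobenius and monodromy, without duality
-/

set_option autoImplicit false

open Module

namespace Pool.Agent.U644.LT

universe u v w

open Pool.Agent.Y163.MW

variable {Ω : Type w} [Field Ω] [CharZero Ω]

/-- The cohomology `V = ⨁ H^m` is finite-dimensional, `F` and `N` respect the degrees, `N F = q F N`, and
the eigenvalues of `F` are `q`-Weil numbers of integral weights. -/
structure IsPre (R : Coh.{v, w} Ω) (q : ℕ) : Prop where
  finite : Module.Finite Ω R.V
  isInternal : DirectSum.IsInternal R.gr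
  F_gr : Respects R.gr R.F
  N_gr : Respects R.gr R.N
  N_F : Twisted (q : Ω) R.F R.N
  weil : HasWeights q R.gr R.F

end Pool.Agent.U644.LT
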