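import Mathlib

/-!
# Linear algebra: invariant tensors in the square of a space with two operators
-/

set_option autoImplicit false

open Module TensorProduct

namespace Pool.Agent.U644.LT

universe u v

variable {Ω : Type u} [Field Ω] {V V' : Type v} [AddCommGroup V] [Module Ω V] [AddCommGroup V']
  [Module Ω V']

/-- The functional `μ ⊗ μ'`. -/
noncomputable def func (μ : V →ₗ[Ω] Ω) (μ' : V' →ₗ[Ω] Ω) : V ⊗[Ω] V' →ₗ[Ω] Ω :=
  (TensorProduct.lid Ω Ω).toLinearMap ∘ₗ TensorProduct.map μ μ'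

lemma func_tmul (μ : V →ₗ[Ω] Ω) (μ' : V' →ₗ[Ω] Ω) (x : V) (y : V') :
    func μ μ' (x ⊗ₜ y) = μ x * μ' y := by
  simp [func]

/-- The functional `μ ⊗ μ'` vanishes on the image of the power of a Leibniz operator. -/
lemma func_pow {N : Module.End Ω V} {N' : Module.End Ω V'} {T : Module.End Ω (V ⊗[Ω] V')}
    (hT : ∀ x y, T (x ⊗ₜ y) = N x ⊗ₜ y + x ⊗ₜ N' y) (n : ℕ) :
    ∀ (a b : ℕ) (μ : V →ₗ[Ω] Ω) (μ' : V' →ₗ[Ω] Ω), (∀ x, μ ((N ^ a) x) = 0) →
      (∀ y, μ' ((N' ^ b) y) = 0) → a + b ≤ n + 1 → ∀ z, func μ μ' ((T ^ n) z) = 0 := by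
  have hstep : ∀ (μ : V →ₗ[Ω] Ω) (μ' : V' →ₗ[Ω] Ω) (z : V ⊗[Ω] V'),
      func μ μ' (T z) = func (μ ∘ₗ N) μ' z + func μ (μ' ∘ₗ N') z := by
    intro μ μ' z
    induction z using TensorProduct.induction_on with
    | zero => simp
    | tmul x y => rw [hT, map_add]; simp only [func_tmul, LinearMap.comp_apply]
    | add z z' h h' => rw [map_add, map_add, map_add, map_add, h, h']; ring
  have hzero : ∀ (μ : V →ₗ[Ω] Ω) (μ' : V' →ₗ[Ω] Ω), μ = 0 ∨ μ' = 0 → ∀ z, func μ μ' z = 0 := by
    intro μ μ' h z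
    induction z using TensorProduct.induction_on with
    | zero => simp
    | tmul x y => rcases h with rfl | rfl <;> simp [func_tmul]
    | add z z' h h' => rw [map_add, h, h', add_zero]
  induction n with
  | zero =>
    intro a b μ μ' h h' hab z
    rw [pow_zero, Module.End.one_apply]
    apply hzero
    rcases Nat.eq_zero_or_pos a with rfl | ha
    · left; ext x; simpa using h x
    · right
      obtain rfl : b = 0 := by omega
      ext y; simpa using h' y
  | succ n ih =>
    intro a b μ μ' h h' hab z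
    rw [pow_succ', Module.End.mul_apply, hstep]
    have e1 : func (μ ∘ₗ N) μ' ((T ^ n) z) = 0 := by
      rcases Nat.eq_zero_or_pos a with rfl | ha
      · apply hzero
        left
        ext x
        have := h (N x)
        simpa using this
      · obtain ⟨a, rfl⟩ : ∃ c, a = c + 1 := ⟨a - 1, by omega⟩
        refine ih a b _ _ (fun x => ?_) h' (by omega) z
        have := h x
        rw [pow_succ', Module.End.mul_apply] at this
        exact this
    have e2 : func μ (μ' ∘ₗ N') ((T ^ n) z) = 0 := by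
      rcases Nat.eq_zero_or_pos b with rfl | hb
      · apply hzero
        right
        ext y
        have := h' (N' y)
        simpa using this
      · obtain ⟨b, rfl⟩ : ∃ c, b = c + 1 := ⟨b - 1, by omega⟩
        refine ih a b _ _ h (fun y => ?_) (by omega) z
        have := h' y
        rw [pow_succ', Module.End.mul_apply] at this
        exact this
    rw [e1, e2, add_zero]

/-- The telescoping identity. -/
lemma telescope (A B C : ℕ → V) (k : ℕ) (hC : ∀ j, C j = B j + C (j + 1)) (hA : A (k + 1) = 0)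
    (hC0 : C (k + 1) = 0) :
    ∑ i ∈ Finset.range (k + 1), ((-1 : Ω) ^ i) • ((A i + A (i + 1)) ⊗ₜ[Ω] C (k - i)) =
      ∑ i ∈ Finset.range (k + 1), ((-1 : Ω) ^ i) • (A i ⊗ₜ[Ω] B (k - i)) := by
  have h : ∀ i ∈ Finset.range (k + 1), ((-1 : Ω) ^ i) • ((A i + A (i + 1)) ⊗ₜ[Ω] C (k - i)) -
      ((-1 : Ω) ^ i) • (A i ⊗ₜ[Ω] B (k - i)) =
      ((-1 : Ω) ^ i) • (A i ⊗ₜ[Ω] C (k + 1 - i)) -
        ((-1 : Ω) ^ (i + 1)) • (A (i + 1) ⊗ₜ[Ω] C (k + 1 - (i + 1))) := by
    intro i hi
    have hi' := Finset.mem_range.1 hi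
    have e1 : B (k - i) = C (k - i) - C (k + 1 - i) := by
      have := hC (k - i)
      rw [show k - i + 1 = k + 1 - i by omega] at this
      rw [this]; abel
    rw [e1, Nat.add_sub_add_right, pow_succ, add_tmul, tmul_sub]
    simp only [smul_add, smul_sub, mul_neg, mul_one, neg_smul]
    abel
  rw [← sub_eq_zero, ← Finset.sum_sub_distrib, Finset.sum_congr rfl h,
    Finset.sum_range_sub' (fun i => ((-1 : Ω) ^ i) • (A i ⊗ₜ[Ω] C (k + 1 - i)))]
  rw [hA, zero_tmul, smul_zero, sub_zero, Nat.sub_zero, hC0, tmul_zero, smul_zero]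

/-- The invariant tensor: if `y` is a generalized eigenvector of `F` for `α` which is killed by `N`, `y`
is not in the image of `N ^ t`, `(F - α) y` is in it, and no nonzero vector in the
span of the vectors `(F - α)^i y` is in the image of `N ^ (t + 1)`, then there is a tensor `ω` which is
killed by `N`, on which `F` is `α ^ 2`, and which is not in the image of `N ^ (2 t)`. -/
theorem exists_tensor {F N : Module.End Ω V} {c : Ω} (hc : c ≠ 0) (hNF : ∀ x, N (F x) = c • F (N x))
    (e : V ≃ₗ[Ω] V) (he : ∀ x, e x = F x) {α : Ω} (hα : α ≠ 0) {S : Submodule Ω V}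
    (hS : ∀ x ∈ S, F x ∈ S) (hS' : ∀ x ∈ S, e.symm x ∈ S) {t : ℕ} {y : V} (hyS : y ∈ S)
    (hy : N y = 0) {k : ℕ} {D : Module.End Ω V} (hD : ∀ x, D x = F x - α • x)
    (hk : (D ^ (k + 1)) y = 0) (hk0 : (D ^ k) y ≠ 0)
    (h1 : ∀ w, (N ^ t) w ≠ y) (h2 : ∃ w, (N ^ t) w = F y - α • y)
    (h3 : ∀ z ∈ S, N z = 0 → z ≠ 0 → ∀ w, (N ^ (t + 1)) w ≠ z)
    {TF TN : Module.End Ω (V ⊗[Ω] V)} (hTF : ∀ x y, TF (x ⊗ₜ y) = F x ⊗ₜ F y)
    (hTN : ∀ x y, TN (x ⊗ₜ y) = N x ⊗ₜ y + x ⊗ₜ N y) :
    ∃ ω ∈ Submodule.span Ω {z | ∃ x ∈ S, ∃ x' ∈ S, z = x ⊗ₜ[Ω] x'}, TN ω = 0 ∧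
      TF ω = (α ^ 2) • ω ∧ ∀ ζ, (TN ^ (2 * t)) ζ ≠ ω := by
  classical
  let p : Module.End Ω V := α⁻¹ • F - LinearMap.id
  let r : Module.End Ω V := LinearMap.id - α • e.symm.toLinearMap
  let A : ℕ → V := fun i => (p ^ i) y
  let B : ℕ → V := fun i => (r ^ i) y
  let C : ℕ → V := fun i => α⁻¹ • F (B i)
  have hp : p = α⁻¹ • D := by
    ext x
    simp only [p, LinearMap.sub_apply, LinearMap.smul_apply, LinearMap.id_apply, smul_sub,
      smul_smul, inv_mul_cancel₀ hα, one_smul, hD]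
  have hpp : ∀ i x, (p ^ i) x = (α⁻¹) ^ i • (D ^ i) x := by
    intro i x
    rw [hp, smul_pow, LinearMap.smul_apply]
  have hsymm : ∀ x, F (e.symm x) = x := fun x => by rw [← he, e.apply_symm_apply]
  have hsymm' : ∀ x, e.symm (F x) = x := fun x => by rw [← he, e.symm_apply_apply]
  -- `r = α e⁻¹ p`
  have hr : ∀ x, r x = α • e.symm (p x) := by
    intro x
    simp only [r, p, LinearMap.sub_apply, LinearMap.smul_apply, LinearMap.id_apply, map_sub,
      map_smul, smul_sub, smul_smul, mul_inv_cancel₀ hα, one_smul, hsymm', LinearEquiv.coe_coe]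
  have hcomm : ∀ x, p (e.symm x) = e.symm (p x) := by
    intro x
    simp only [p, LinearMap.sub_apply, LinearMap.smul_apply, LinearMap.id_apply, map_sub,
      map_smul, hsymm, hsymm']
  have hcommi : ∀ i x, (p ^ i) (e.symm x) = e.symm ((p ^ i) x) := by
    intro i
    induction i with
    | zero => intro x; simp
    | succ i ih => intro x; rw [pow_succ, Module.End.mul_apply, hcomm, ih, Module.End.mul_apply]
  have hri : ∀ i x, (r ^ i) x = α ^ i • ((e.symm.toLinearMap ^ i : Module.End Ω V)) ((p ^ i) x) := by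
    intro i
    induction i with
    | zero => intro x; simp
    | succ i ih =>
      intro x
      rw [pow_succ, Module.End.mul_apply, ih, hr, map_smul, hcommi, map_smul, smul_smul, ← pow_succ,
        pow_succ (e.symm.toLinearMap : Module.End Ω V), Module.End.mul_apply, pow_succ p,
        Module.End.mul_apply]
      rfl
  have hN1 : ∀ x, N x = 0 → N (F x) = 0 := fun x hx => by rw [hNF, hx, map_zero, smul_zero]
  have hN2 : ∀ x, N x = 0 → N (e.symm x) = 0 := by
    intro x hx
    have h4 := hNF (e.symm x)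
    rw [hsymm, hx] at h4
    have h5 := (smul_eq_zero.1 h4.symm).resolve_left hc
    have h6 : e (N (e.symm x)) = 0 := by rw [he, h5]
    exact (LinearEquiv.map_eq_zero_iff e).1 h6
  have hNp : ∀ x, N x = 0 → N (p x) = 0 := by
    intro x hx
    simp only [p, LinearMap.sub_apply, LinearMap.smul_apply, LinearMap.id_apply, map_sub,
      map_smul, hN1 x hx, hx, smul_zero, sub_zero]
  have hNr : ∀ x, N x = 0 → N (r x) = 0 := by
    intro x hx
    rw [hr, map_smul, hN2 _ (hNp x hx), smul_zero]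
  have hSp : ∀ x ∈ S, p x ∈ S := fun x hx => S.sub_mem (S.smul_mem _ (hS x hx)) hx
  have hSr : ∀ x ∈ S, r x ∈ S := fun x hx => S.sub_mem hx (S.smul_mem _ (hS' x hx))
  have hA : ∀ i, A i ∈ S ∧ N (A i) = 0 := by
    intro i
    induction i with
    | zero => exact ⟨by simpa [A] using hyS, by simpa [A] using hy⟩
    | succ i ih =>
      have e1 : A (i + 1) = p (A i) := by
        show (p ^ (i + 1)) y = _
        rw [pow_succ', Module.End.mul_apply]
      rw [e1]
      exact ⟨hSp _ ih.1, hNp _ ih.2⟩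
  have hB : ∀ i, B i ∈ S ∧ N (B i) = 0 := by
    intro i
    induction i with
    | zero => exact ⟨by simpa [B] using hyS, by simpa [B] using hy⟩
    | succ i ih =>
      have e1 : B (i + 1) = r (B i) := by
        show (r ^ (i + 1)) y = _
        rw [pow_succ', Module.End.mul_apply]
      rw [e1]
      exact ⟨hSr _ ih.1, hNr _ ih.2⟩
  have hAk : A (k + 1) = 0 := by
    show (p ^ (k + 1)) y = 0
    rw [hpp, hk, smul_zero]
  have hBk : B (k + 1) = 0 := by
    show (r ^ (k + 1)) y = 0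
    have h4 : (p ^ (k + 1)) y = 0 := hAk
    rw [hri, h4, map_zero, smul_zero]
  have hBk0 : B k ≠ 0 := by
    intro h4
    have h5 : (r ^ k) y = 0 := h4
    rw [hri] at h5
    have h6 := (smul_eq_zero.1 h5).resolve_left (pow_ne_zero _ hα)
    have h7 : ∀ i x, ((e.symm.toLinearMap ^ i : Module.End Ω V)) x = 0 → x = 0 := by
      intro i
      induction i with
      | zero => intro x hx; simpa using hx
      | succ i ih =>
        intro x hx
        rw [pow_succ, Module.End.mul_apply] at hx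
        exact (LinearEquiv.map_eq_zero_iff e.symm).1 (ih _ hx)
    have h8 := h7 _ _ h6
    rw [hpp] at h8
    exact hk0 ((smul_eq_zero.1 h8).resolve_left (pow_ne_zero _ (inv_ne_zero hα)))
  have hCB : ∀ j, C j = B j + C (j + 1) := by
    intro j
    have e1 : B (j + 1) = r (B j) := by
      show (r ^ (j + 1)) y = _
      rw [pow_succ', Module.End.mul_apply]
    show α⁻¹ • F (B j) = B j + α⁻¹ • F (B (j + 1))
    rw [e1]
    simp only [r, LinearMap.sub_apply, LinearMap.smul_apply, LinearMap.id_apply, map_sub, map_smul,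
      LinearEquiv.coe_coe, hsymm, smul_sub, smul_smul, inv_mul_cancel₀ hα, one_smul]
    abel
  let ω : V ⊗[Ω] V := ∑ i ∈ Finset.range (k + 1), ((-1 : Ω) ^ i) • (A i ⊗ₜ[Ω] B (k - i))
  have hFA : ∀ i, F (A i) = α • (A i + A (i + 1)) := by
    intro i
    have e1 : A (i + 1) = p (A i) := by
      show (p ^ (i + 1)) y = _
      rw [pow_succ', Module.End.mul_apply]
    rw [e1]
    simp only [p, LinearMap.sub_apply, LinearMap.smul_apply, LinearMap.id_apply, add_sub_cancel,
      smul_smul, mul_inv_cancel₀ hα, one_smul]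
  have hFB : ∀ i, F (B i) = α • C i := by
    intro i
    show F (B i) = α • (α⁻¹ • F (B i))
    rw [smul_smul, mul_inv_cancel₀ hα, one_smul]
  refine ⟨ω, ?_, ?_, ?_, ?_⟩
  · refine Submodule.sum_mem _ fun i _ => Submodule.smul_mem _ _ (Submodule.subset_span ?_)
    exact ⟨_, (hA i).1, _, (hB _).1, rfl⟩
  · show TN (∑ i ∈ Finset.range (k + 1), ((-1 : Ω) ^ i) • (A i ⊗ₜ[Ω] B (k - i))) = 0
    rw [map_sum]
    refine Finset.sum_eq_zero fun i _ => ?_
    rw [map_smul, hTN, (hA i).2, (hB _).2, zero_tmul, tmul_zero, add_zero, smul_zero]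
  · have hω : ∑ i ∈ Finset.range (k + 1), ((-1 : Ω) ^ i) • ((A i + A (i + 1)) ⊗ₜ[Ω] C (k - i)) = ω :=
      telescope A B C k hCB hAk (by
        show α⁻¹ • F (B (k + 1)) = 0
        rw [hBk, map_zero, smul_zero])
    have h4 : TF ω = ∑ i ∈ Finset.range (k + 1),
        (α ^ 2) • (((-1 : Ω) ^ i) • ((A i + A (i + 1)) ⊗ₜ[Ω] C (k - i))) := by
      show TF (∑ i ∈ Finset.range (k + 1), ((-1 : Ω) ^ i) • (A i ⊗ₜ[Ω] B (k - i))) = _
      rw [map_sum]
      refine Finset.sum_congr rfl fun i _ => ?_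
      rw [map_smul, hTF, hFA, hFB, smul_tmul_smul, smul_comm, sq]
    rw [h4, ← Finset.smul_sum, hω]
  · intro ζ hζ
    -- the functionals
    obtain ⟨μ, hμy, hμ⟩ := Submodule.exists_le_ker_of_notMem (K := Ω)
      (p := LinearMap.range (N ^ t)) (v := y) (by rintro ⟨w, hw⟩; exact h1 w hw)
    obtain ⟨μ', hμy', hμ'⟩ := Submodule.exists_le_ker_of_notMem (K := Ω)
      (p := LinearMap.range (N ^ (t + 1))) (v := B k)
      (by rintro ⟨w, hw⟩; exact h3 _ (hB k).1 (hB k).2 hBk0 w hw)
    have h4 := func_pow hTN (2 * t) t (t + 1) μ μ' (fun x => hμ ⟨x, rfl⟩) (fun x => hμ' ⟨x, rfl⟩)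
      (by omega) ζ
    rw [hζ] at h4
    have hNtF : ∀ (s : ℕ) (x : V), (N ^ s) (F x) = c ^ s • F ((N ^ s) x) := by
      intro s
      induction s with
      | zero => intro x; simp
      | succ s ih =>
        intro x
        rw [pow_succ, Module.End.mul_apply, hNF, map_smul, ih, smul_smul, Module.End.mul_apply,
          pow_succ, mul_comm]
    have hrange : ∀ x ∈ LinearMap.range (N ^ t), p x ∈ LinearMap.range (N ^ t) := by
      rintro _ ⟨w, rfl⟩
      refine Submodule.sub_mem _ (Submodule.smul_mem _ _ ?_) ⟨w, rfl⟩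
      refine ⟨(c ^ t)⁻¹ • F w, ?_⟩
      rw [map_smul, hNtF, smul_smul, inv_mul_cancel₀ (pow_ne_zero _ hc), one_smul]
    have hAr : ∀ i, A (i + 1) ∈ LinearMap.range (N ^ t) := by
      intro i
      induction i with
      | zero =>
        obtain ⟨w, hw⟩ := h2
        refine ⟨α⁻¹ • w, ?_⟩
        show _ = (p ^ (0 + 1)) y
        rw [map_smul, hw, hpp, zero_add, pow_one, pow_one, hD]
      | succ i ih =>
        have e1 : A (i + 1 + 1) = p (A (i + 1)) := by
          show (p ^ (i + 1 + 1)) y = _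
          rw [pow_succ', Module.End.mul_apply]
        rw [e1]
        exact hrange _ ih
    have h5 : func μ μ' ω = μ y * μ' (B k) := by
      show func μ μ' (∑ i ∈ Finset.range (k + 1), ((-1 : Ω) ^ i) • (A i ⊗ₜ[Ω] B (k - i))) = _
      rw [map_sum, Finset.sum_range_succ']
      have h6 : ∑ i ∈ Finset.range k, func μ μ' (((-1 : Ω) ^ (i + 1)) •
          (A (i + 1) ⊗ₜ[Ω] B (k - (i + 1)))) = 0 := by
        refine Finset.sum_eq_zero fun i _ => ?_
        rw [map_smul, func_tmul, LinearMap.mem_ker.1 (hμ (hAr i)), zero_mul, smul_zero]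
      rw [h6, zero_add, map_smul, func_tmul, pow_zero, one_smul, Nat.sub_zero]
      rfl
    rw [h5] at h4
    rcases mul_eq_zero.1 h4 with h6 | h6
    · exact hμy h6
    · exact hμy' h6

end Pool.Agent.U644.LT
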