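import Pool.Agent.U644.LT.Pre
import Pool.Agent.U644.LT.LA
import Pool.Agent.U644.LT.Defs
import Pool.Agent.U644.MW.Core

/-!
# The criterion for the monodromy-weight conjecture by eigenvectors of negative excess
-/

set_option autoImplicit false

open Module TensorProduct

namespace Pool.Agent.U644.LT

universe u v w

open Pool.Agent.Y143 Pool.Agent.Y136.UB Pool.Agent.Y163.MW
open Pool.Agent.Y163.MW.Coh (wtf wtf_eq pc)

variable {Ω : Type w} [Field Ω] [CharZero Ω] {R R' R'' : Coh.{v, w} Ω} {q : ℕ}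

/-- Every eigenvector of `F` in `H^(2m)` which is killed by `N` and has weight `2m - 2t`, `t ≥ 0`, is in
the image of `N ^ (2t)`. -/
def Crit (R : Coh.{v, w} Ω) (q : ℕ) : Prop :=
  ∀ (m t : ℕ) (α : Ω), IsWeilNumber q (((m + m : ℕ) : ℤ) - ((2 * t : ℕ) : ℤ)) α →
    ∀ v ∈ R.gr (m + m), R.N v = 0 → R.F v = α • v → ∃ w, (R.N ^ (2 * t)) w = v

lemma finrank_tot_neg [IsAlgClosed Ω] (hq : 1 < q) (hR : IsPre R q)
    (h : ∃ d B, IsPoincare q d R.gr R.F B) (c : ℤ) :
    finrank Ω (R.tot q c) = finrank Ω (R.tot q (-c)) := by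
  have := hR.finite
  have key : ∀ c : ℤ, finrank Ω (R.tot q c) ≤ finrank Ω (R.tot q (-c)) := by
    intro c
    obtain ⟨d, B, hB⟩ := h
    have hB0 : ∀ x, (∀ y, B x y = 0) → x = 0 := hB.nondeg
    have hB1 : ∀ m m' x y, x ∈ R.gr m → y ∈ R.gr m' → m + m' ≠ 2 * d → B x y = 0 := hB.orth
    have hB2 : ∀ x y, B (R.F x) (R.F y) = (q : Ω) ^ d * B x y := hB.frob
    let φ : R.tot q c →ₗ[Ω] Module.Dual Ω (R.tot q (-c)) :=
      { toFun := fun x => (B x).comp (R.tot q (-c)).subtype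
        map_add' := fun x y => by ext z; simp
        map_smul' := fun a x => by ext z; simp }
    have hφ : Function.Injective φ := by
      rw [← LinearMap.ker_eq_bot, LinearMap.ker_eq_bot']
      intro x hx
      apply Subtype.ext
      apply hB0
      have h1 : ∀ m' c', ∀ y ∈ R.exc q m' c', B x y = 0 := by
        intro m' c' y hy
        by_cases hc : c' = -c
        · subst hc
          exact DFunLike.congr_fun hx ⟨y, exc_le_tot m' _ hy⟩
        · have h2 : R.tot q c ≤ LinearMap.ker (B.flip y) := by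
            refine iSup_le fun m => iSup₂_le fun α hα z hz => ?_
            rw [LinearMap.mem_ker, LinearMap.flip_apply]
            by_cases hm : m + m' = 2 * d
            · have h4 : R.exc q m' c' ≤ LinearMap.ker (B z) := by
                refine iSup₂_le fun β hβ t ht => ?_
                rw [LinearMap.mem_ker]
                refine gen_orth (S := ⊤) (fun _ _ => Submodule.mem_top)
                  (fun x y _ _ => hB2 x y) ?_ Submodule.mem_top
                  Submodule.mem_top (Submodule.mem_inf.1 hz).2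
                  (Submodule.mem_inf.1 ht).2
                intro h5
                have h6 := weil_mul (by omega) hα hβ
                rw [h5] at h6
                have h7 := weil_unique hq h6 (weil_natPow (by omega) d)
                omega
              exact LinearMap.mem_ker.1 (h4 hy)
            · exact hB1 m m' z y (Submodule.mem_inf.1 hz).1 (exc_le m' c' hy) hm
          exact LinearMap.mem_ker.1 (h2 x.2)
      intro y
      have h8 : (⊤ : Submodule Ω R.V) ≤ LinearMap.ker (B x) := by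
        rw [← hR.isInternal.submodule_iSup_eq_top]
        refine iSup_le fun m' => ?_
        rw [← iSup_exc hR m']
        exact iSup_le fun c' y hy => LinearMap.mem_ker.2 (h1 m' c' y hy)
      exact LinearMap.mem_ker.1 (h8 (Submodule.mem_top))
    have := LinearMap.finrank_le_finrank_of_injective hφ
    rwa [Subspace.dual_finrank_eq] at this
  apply le_antisymm (key c)
  have := key (-c)
  rwa [neg_neg] at this

lemma pc_le_exc {m : ℕ} {c : ℤ} {α : Ω} (h : IsWeilNumber q (m + c) α) :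
    R.pc (m, α) ≤ R.exc q m c := by
  intro x hx
  exact Submodule.mem_iSup_of_mem α (Submodule.mem_iSup_of_mem h hx)

lemma F_pc (hR : IsPre R q) {m : ℕ} {α : Ω} {x : R.V} (hx : x ∈ R.pc (m, α)) :
    R.F x ∈ R.pc (m, α) := by
  obtain ⟨h1, h2⟩ := Submodule.mem_inf.1 hx
  exact Submodule.mem_inf.2 ⟨hR.F_gr m x h1, gen_map R.F (fun _ => rfl) h2⟩

lemma N_pc (hq : 1 < q) (hR : IsPre R q) {m : ℕ} {α : Ω} {x : R.V} (hx : x ∈ R.pc (m, α)) :
    R.N x ∈ R.pc (m, (q : Ω)⁻¹ * α) := by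
  have hq0 : (q : Ω) ≠ 0 := Nat.cast_ne_zero.2 (by omega)
  obtain ⟨h1, h2⟩ := Submodule.mem_inf.1 hx
  refine Submodule.mem_inf.2 ⟨hR.N_gr m x h1, ?_⟩
  have h4 : x ∈ ((q : Ω)⁻¹ • R.F).maxGenEigenspace ((q : Ω)⁻¹ * α) := by
    obtain ⟨k, hk⟩ := mem_gen.1 h2
    refine mem_gen.2 ⟨k, ?_⟩
    have e : (q : Ω)⁻¹ • R.F - algebraMap Ω (Module.End Ω R.V) ((q : Ω)⁻¹ * α) =
        (q : Ω)⁻¹ • (R.F - algebraMap Ω (Module.End Ω R.V) α) := by
      ext z
      simp only [LinearMap.sub_apply, LinearMap.smul_apply, Module.algebraMap_end_apply,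
        smul_sub, smul_smul]
    rw [e, smul_pow, LinearMap.smul_apply, hk, smul_zero]
  refine gen_map R.N (fun z => ?_) h4
  rw [LinearMap.smul_apply, map_smul, hR.N_F, smul_smul, inv_mul_cancel₀ hq0, one_smul]

lemma powN_exc (hq : 1 < q) (hR : IsPre R q) (m : ℕ) (k : ℕ) :
    ∀ (c : ℤ), ∀ x ∈ R.exc q m c, (R.N ^ k) x ∈ R.exc q m (c - 2 * k) := by
  induction k with
  | zero => intro c x hx; simpa using hx
  | succ k ih =>
    intro c x hx
    rw [pow_succ', Module.End.mul_apply]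
    have := N_exc hq hR m _ _ (ih c x hx)
    rwa [show c - 2 * (k : ℤ) - 2 = c - 2 * ((k + 1 : ℕ) : ℤ) by push_cast; ring] at this

/-- A preimage under `N ^ t` can be chosen homogeneous. -/
lemma exists_hom [IsAlgClosed Ω] (hq : 1 < q) (hR : IsPre R q) {m t : ℕ} {c : ℤ} {y : R.V}
    (hy : y ∈ R.exc q m (c - 2 * t)) (h : ∃ w, (R.N ^ t) w = y) :
    ∃ w ∈ R.exc q m c, (R.N ^ t) w = y := by
  classical
  obtain ⟨w, hw⟩ := h
  have htop : w ∈ ⨆ p : ℕ × ℤ, R.exc q p.1 p.2 := by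
    have h1 : (⊤ : Submodule Ω R.V) ≤ ⨆ p : ℕ × ℤ, R.exc q p.1 p.2 := by
      rw [← hR.isInternal.submodule_iSup_eq_top]
      refine iSup_le fun m => ?_
      rw [← iSup_exc hR m]
      exact iSup_le fun c => le_iSup (fun p : ℕ × ℤ => R.exc q p.1 p.2) (m, c)
    exact h1 Submodule.mem_top
  obtain ⟨f, hf, hfw⟩ := (Submodule.mem_iSup_iff_exists_finsupp _ _).1 htop
  have hfw' : ∑ p ∈ f.support, f p = w := hfw
  have hind : iSupIndep (fun p : ℕ × ℤ => R.exc q p.1 (p.2 - 2 * t)) :=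
    (indep_exc hq hR).comp (f := fun p : ℕ × ℤ => (p.1, p.2 - 2 * (t : ℤ))) (fun p p' h => by
      have h1 := (Prod.mk.inj h).1
      have h2 := (Prod.mk.inj h).2
      exact Prod.ext h1 (by linarith))
  rw [iSupIndep_iff_finsetSum_eq_zero_imp_eq_zero] at hind
  have h1 := hind (insert (m, c) f.support) (fun p => (R.N ^ t) (f p) - if p = (m, c) then y else 0)
    (fun p _ => by
      refine Submodule.sub_mem _ (powN_exc hq hR p.1 t p.2 _ (hf p)) ?_
      split_ifs with h2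
      · rw [h2]; exact hy
      · exact Submodule.zero_mem _) (by
      rw [Finset.sum_sub_distrib, Finset.sum_ite_eq', if_pos (Finset.mem_insert_self _ _)]
      have h2 : ∑ p ∈ insert (m, c) f.support, (R.N ^ t) (f p) =
          ∑ p ∈ f.support, (R.N ^ t) (f p) := by
        by_cases h3 : (m, c) ∈ f.support
        · rw [Finset.insert_eq_of_mem h3]
        · rw [Finset.sum_insert h3, Finsupp.notMem_support_iff.1 h3, map_zero, zero_add]
      rw [h2, ← map_sum, hfw', hw, sub_self]) (m, c) (Finset.mem_insert_self _ _)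
  rw [if_pos rfl, sub_eq_zero] at h1
  exact ⟨f (m, c), hf (m, c), h1⟩

/-- The kernel of `N` on `exc` is spanned by its parts in the generalized eigenspaces. -/
lemma ker_le (hq : 1 < q) (hR : IsPre R q) {m : ℕ} {c : ℤ} {S : Submodule Ω R.V}
    (h : ∀ α, IsWeilNumber q ((m : ℤ) + c) α → ∀ x ∈ R.pc (m, α), R.N x = 0 → x ∈ S) :
    ∀ x ∈ R.exc q m c, R.N x = 0 → x ∈ S := by
  classical
  have hq0 : (q : Ω) ≠ 0 := Nat.cast_ne_zero.2 (by omega)
  intro x hx hN
  have hx' : x ∈ ⨆ α : Ω, (⨆ _ : IsWeilNumber q ((m : ℤ) + c) α, R.pc (m, α)) := hx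
  obtain ⟨f, hf, hfx⟩ := (Submodule.mem_iSup_iff_exists_finsupp _ _).1 hx'
  have hfx' : ∑ α ∈ f.support, f α = x := hfx
  have hle : ∀ α, (⨆ _ : IsWeilNumber q ((m : ℤ) + c) α, R.pc (m, α)) ≤ R.pc (m, α) :=
    fun α => iSup_le fun _ => le_rfl
  have hind : iSupIndep (fun β : Ω => R.pc (m, (q : Ω)⁻¹ * β)) :=
    (indep_pc hR).comp (f := fun β : Ω => (m, (q : Ω)⁻¹ * β)) (fun β β' h => by
      have := (Prod.mk.inj h).2
      exact mul_left_cancel₀ (inv_ne_zero hq0) this)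
  rw [iSupIndep_iff_finsetSum_eq_zero_imp_eq_zero] at hind
  have h1 := hind f.support (fun α => R.N (f α)) (fun α _ => N_pc hq hR (hle α (hf α)))
    (by rw [← map_sum, hfx', hN])
  rw [← hfx']
  refine Submodule.sum_mem _ fun α hα => ?_
  by_cases hw : IsWeilNumber q ((m : ℤ) + c) α
  · exact h α hw _ (hle α (hf α)) (h1 α hα)
  · have h2 := hf α
    rw [iSup_neg hw] at h2
    rw [(Submodule.mem_bot Ω).1 h2]
    exact Submodule.zero_mem _

lemma F_injective (hq : 1 < q) (hR : IsPre R q) : Function.Injective R.F := by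
  classical
  rw [← LinearMap.ker_eq_bot, LinearMap.ker_eq_bot']
  intro x hx
  have hind := hR.isInternal.submodule_iSupIndep
  rw [iSupIndep_iff_finsetSum_eq_zero_imp_eq_zero] at hind
  have htop : x ∈ ⨆ m, R.gr m := by
    rw [hR.isInternal.submodule_iSup_eq_top]; exact Submodule.mem_top
  obtain ⟨f, hf, hfx⟩ := (Submodule.mem_iSup_iff_exists_finsupp _ _).1 htop
  have hfx' : ∑ m ∈ f.support, f m = x := hfx
  have h1 := hind f.support (fun m => R.F (f m)) (fun m _ => hR.F_gr m _ (hf m))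
    (by rw [← map_sum, hfx', hx])
  rw [← hfx']
  refine Finset.sum_eq_zero fun m hm => ?_
  by_contra h0
  obtain ⟨w, hw⟩ := hR.weil m 0 (f m) (hf m) h0 (by rw [h1 m hm, zero_smul])
  exact weil_ne_zero (by omega) hw rfl

/-- the statement for one `t` -/
def D (R : Coh.{v, w} Ω) (q t : ℕ) : Prop :=
  (∀ m, ∀ y ∈ R.exc q m (-(t : ℤ)), ∃ x ∈ R.exc q m t, (R.N ^ t) x = y) ∧
    ∀ m, ∀ x ∈ R.exc q m t, (R.N ^ t) x = 0 → x = 0

/-- The key step. -/
lemma range_of_crit (hq : 1 < q) (hR : IsPre R q) [IsAlgClosed Ω]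
    (hS : HasSummand R.F R.N R.F R.N R''.F R''.N R.gr R.gr R''.gr) (hC : Crit R'' q) {t : ℕ}
    (hD : D R q (t + 2)) {m : ℕ} {α : Ω} (hα : IsWeilNumber q ((m : ℤ) + (-(t : ℤ))) α) :
    ∀ x ∈ R.pc (m, α), R.N x = 0 → x ∈ LinearMap.range (R.N ^ t) := by
  classical
  have := hR.finite
  have hq0 : (q : Ω) ≠ 0 := Nat.cast_ne_zero.2 (by omega)
  have hα0 : α ≠ 0 := weil_ne_zero (by omega) hα
  intro y0 hy0 hNy0
  by_contra hcon
  let Dd : Module.End Ω R.V := R.F - algebraMap Ω (Module.End Ω R.V) α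
  have hDd : ∀ x, Dd x = R.F x - α • x := fun x => by
    rw [LinearMap.sub_apply, Module.algebraMap_end_apply]
  have hDpc : ∀ i, (Dd ^ i) y0 ∈ R.pc (m, α) ∧ R.N ((Dd ^ i) y0) = 0 := by
    intro i
    induction i with
    | zero => exact ⟨by simpa using hy0, by simpa using hNy0⟩
    | succ i ih =>
      rw [pow_succ', Module.End.mul_apply, hDd]
      refine ⟨Submodule.sub_mem _ (F_pc hR ih.1) (Submodule.smul_mem _ _ ih.1), ?_⟩
      have h1 := hR.N_F ((Dd ^ i) y0)
      rw [map_sub, map_smul, h1, ih.2, map_zero, smul_zero, smul_zero, sub_zero]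
  obtain ⟨k0, hk0⟩ := mem_gen.1 (Submodule.mem_inf.1 hy0).2
  have hk0' : (Dd ^ k0) y0 = 0 := hk0
  have hex : ∃ i, (Dd ^ i) y0 ∈ LinearMap.range (R.N ^ t) := ⟨k0, by rw [hk0']; exact zero_mem _⟩
  obtain ⟨i, hi⟩ : ∃ i, Nat.find hex = i + 1 := by
    refine ⟨Nat.find hex - 1, ?_⟩
    have : Nat.find hex ≠ 0 := by
      intro h0
      have h1 := Nat.find_spec hex
      rw [h0, pow_zero, Module.End.one_apply] at h1
      exact hcon h1
    omega
  set y := (Dd ^ i) y0 with hy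
  have hy1 : y ∉ LinearMap.range (R.N ^ t) := Nat.find_min hex (by omega)
  have hy2 : Dd y ∈ LinearMap.range (R.N ^ t) := by
    have h1 := Nat.find_spec hex
    rw [hi, pow_succ', Module.End.mul_apply] at h1
    exact h1
  obtain ⟨hypc, hNy⟩ := hDpc i
  rw [← hy] at hypc hNy
  have hex2 : ∃ j, (Dd ^ j) y = 0 := by
    obtain ⟨k1, hk1⟩ := mem_gen.1 (Submodule.mem_inf.1 hypc).2
    exact ⟨k1, hk1⟩
  obtain ⟨k, hk⟩ : ∃ k, Nat.find hex2 = k + 1 := by
    refine ⟨Nat.find hex2 - 1, ?_⟩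
    have : Nat.find hex2 ≠ 0 := by
      intro h0
      have h1 := Nat.find_spec hex2
      rw [h0, pow_zero, Module.End.one_apply] at h1
      rw [h1] at hy1
      exact hy1 (zero_mem _)
    omega
  have hk1 : (Dd ^ (k + 1)) y = 0 := by rw [← hk]; exact Nat.find_spec hex2
  have hk2 : (Dd ^ k) y ≠ 0 := Nat.find_min hex2 (by omega)
  let e : R.V ≃ₗ[Ω] R.V := LinearEquiv.ofInjectiveEndo R.F (F_injective hq hR)
  have he : ∀ x, e x = R.F x := fun x => rfl
  have hFS : ∀ x ∈ R.pc (m, α), R.F x ∈ R.pc (m, α) := fun x hx => F_pc hR hx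
  have hS' : ∀ x ∈ R.pc (m, α), e.symm x ∈ R.pc (m, α) := by
    intro x hx
    have hinj : Function.Injective (R.F.restrict hFS) := by
      intro a b hab
      exact Subtype.ext (F_injective hq hR (congrArg Subtype.val hab))
    obtain ⟨x', hx'⟩ := LinearMap.injective_iff_surjective.1 hinj ⟨x, hx⟩
    have h1 : R.F x' = x := congrArg Subtype.val hx'
    have h2 : e.symm x = x' := by rw [LinearEquiv.symm_apply_eq, he, h1]
    rw [h2]
    exact x'.2
  obtain ⟨κ, ρ, TF, TN, hκρ, hTF, hTN, hκF, hκN, hρN, hdeg⟩ := hS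
  obtain ⟨ω, hω, hNω, hFω, hω'⟩ := exists_tensor hq0 hR.N_F e he hα0 hFS hS' (t := t) hypc hNy hDd
    hk1 hk2 (fun w hw => hy1 ⟨w, hw⟩) (by
      obtain ⟨w, hw⟩ := hy2
      exact ⟨w, by rw [hw, hDd]⟩) (by
      intro z hz hNz hz0 w hw
      have h1 : z ∈ R.exc q m (((t + 2 : ℕ) : ℤ) - 2 * ((t + 1 : ℕ) : ℤ)) := by
        have := pc_le_exc hα hz
        rwa [show (((t + 2 : ℕ) : ℤ) - 2 * ((t + 1 : ℕ) : ℤ)) = -(t : ℤ) by push_cast; ring]
      obtain ⟨w', hw', hw''⟩ := exists_hom hq hR h1 ⟨w, hw⟩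
      have h2 := hD.2 m w' hw' (by
        rw [show t + 2 = (t + 1) + 1 by ring, pow_succ', Module.End.mul_apply, hw'', hNz])
      rw [h2, map_zero] at hw''
      exact hz0 hw''.symm) hTF hTN
  have h1 : κ ω ∈ R''.gr (m + m) := by
    have hle : Submodule.span Ω {z | ∃ x ∈ R.pc (m, α), ∃ x' ∈ R.pc (m, α), z = x ⊗ₜ[Ω] x'} ≤
        (R''.gr (m + m)).comap κ := by
      rw [Submodule.span_le]
      rintro _ ⟨x, hx, x', hx', rfl⟩
      exact hdeg m m x x' (Submodule.mem_inf.1 hx).1 (Submodule.mem_inf.1 hx').1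
    exact hle hω
  have hw2 : IsWeilNumber q (((m + m : ℕ) : ℤ) - ((2 * t : ℕ) : ℤ)) (α ^ 2) := by
    have := weil_mul (by omega) hα hα
    rw [sq]
    rwa [show ((m : ℤ) + -(t : ℤ) + ((m : ℤ) + -(t : ℤ))) =
      (((m + m : ℕ) : ℤ) - ((2 * t : ℕ) : ℤ)) by push_cast; ring] at this
  obtain ⟨w, hw⟩ := hC m t (α ^ 2) hw2 (κ ω) h1 (by rw [← hκN, hNω, map_zero])
    (by rw [← hκF, hFω, map_smul])
  have hρpow : ∀ (n : ℕ) (z : R''.V), ρ ((R''.N ^ n) z) = (TN ^ n) (ρ z) := by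
    intro n
    induction n with
    | zero => intro z; simp
    | succ n ih =>
      intro z
      rw [pow_succ, Module.End.mul_apply, ih, hρN, pow_succ, Module.End.mul_apply]
  refine hω' (ρ w) ?_
  rw [← hρpow, hw, hκρ]

lemma D_step [IsAlgClosed Ω] (hq : 1 < q) (hR : IsPre R q)
    (hP : ∃ d B, IsPoincare q d R.gr R.F B)
    (hS : HasSummand R.F R.N R.F R.N R''.F R''.N R.gr R.gr R''.gr) (hC : Crit R'' q) {t : ℕ}
    (hD : D R q (t + 2)) : D R q t := by
  classical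
  have := hR.finite
  have h1 : ∀ m, ∀ y ∈ R.exc q m (-(t : ℤ)), ∃ x ∈ R.exc q m t, (R.N ^ t) x = y := by
    intro m y hy
    have h2 : ∀ x ∈ R.exc q m (-(t : ℤ)), R.N x = 0 → x ∈ LinearMap.range (R.N ^ t) :=
      ker_le hq hR fun α hα => range_of_crit hq hR hS hC hD hα
    have h3 : R.N y ∈ R.exc q m (-((t + 2 : ℕ) : ℤ)) := by
      have := N_exc hq hR m _ y hy
      rwa [show -(t : ℤ) - 2 = -((t + 2 : ℕ) : ℤ) by push_cast; ring] at this
    obtain ⟨z, hz, hzy⟩ := hD.1 m _ h3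
    have h4 : (R.N ^ (t + 1)) z ∈ R.exc q m (-(t : ℤ)) := by
      have := powN_exc hq hR m (t + 1) _ z hz
      rwa [show ((t + 2 : ℕ) : ℤ) - 2 * ((t + 1 : ℕ) : ℤ) = -(t : ℤ) by push_cast; ring] at this
    obtain ⟨w, hw⟩ := h2 (y - (R.N ^ (t + 1)) z) (Submodule.sub_mem _ hy h4) (by
      rw [map_sub, ← hzy, show t + 2 = (t + 1) + 1 by ring, pow_succ' R.N (t + 1),
        Module.End.mul_apply, sub_self])
    refine exists_hom hq hR (c := t) ?_ ⟨w + R.N z, ?_⟩
    · rwa [show (t : ℤ) - 2 * (t : ℤ) = -(t : ℤ) by ring]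
    · rw [map_add, hw, ← Module.End.mul_apply, ← pow_succ, sub_add_cancel]
  refine ⟨h1, fun m x hx h0 => ?_⟩
  have hmap : ∀ x ∈ R.tot q t, (R.N ^ t) x ∈ R.tot q (-(t : ℤ)) := by
    intro x hx
    have hle : R.tot q t ≤ (R.tot q (-(t : ℤ))).comap (R.N ^ t) := by
      refine iSup_le fun m y hy => ?_
      have := powN_exc hq hR m t _ y hy
      rw [show (t : ℤ) - 2 * (t : ℤ) = -(t : ℤ) by ring] at this
      exact exc_le_tot m _ this
    exact hle hx
  let φ : R.tot q t →ₗ[Ω] R.tot q (-(t : ℤ)) := (R.N ^ t).restrict hmap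
  have hsurj : Function.Surjective φ := by
    rintro ⟨y, hy⟩
    obtain ⟨f, hf, hfy⟩ := (Submodule.mem_iSup_iff_exists_finsupp _ _).1 hy
    have hfy' : ∑ m ∈ f.support, f m = y := hfy
    choose g hg hg' using fun m => h1 m (f m) (hf m)
    refine ⟨⟨∑ m ∈ f.support, g m, Submodule.sum_mem _ fun m _ => exc_le_tot m _ (hg m)⟩, ?_⟩
    apply Subtype.ext
    show (R.N ^ t) (∑ m ∈ f.support, g m) = y
    rw [map_sum, ← hfy']
    exact Finset.sum_congr rfl fun m _ => hg' m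
  have hinj := (LinearMap.injective_iff_surjective_of_finrank_eq_finrank
    (finrank_tot_neg hq hR hP t)).2 hsurj
  have h2 : φ ⟨x, exc_le_tot m _ hx⟩ = 0 := Subtype.ext h0
  exact congrArg Subtype.val (hinj (h2.trans (map_zero _).symm))

/-- The criterion. -/
theorem mw_of_crit [IsAlgClosed Ω] (hq : 1 < q) (hR : IsPre R q)
    (hP : ∃ d B, IsPoincare q d R.gr R.F B)
    (hS : HasSummand R.F R.N R.F R.N R''.F R''.N R.gr R.gr R''.gr) (hC : Crit R'' q) :
    ∀ m, R.MWPure q m := by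
  have := hR.finite
  have hfin : {c : ℤ | R.tot q c ≠ ⊥}.Finite :=
    WellFoundedGT.finite_ne_bot_of_iSupIndep (indep_tot hq hR)
  obtain ⟨T0, hT0⟩ : ∃ T0 : ℕ, ∀ c : ℤ, R.tot q c ≠ ⊥ → c.natAbs ≤ T0 := by
    obtain ⟨T0, hT0⟩ := (hfin.image Int.natAbs).bddAbove
    exact ⟨T0, fun c hc => hT0 ⟨c, hc, rfl⟩⟩
  have hbot : ∀ c : ℤ, T0 < c.natAbs → ∀ m, ∀ x ∈ R.exc q m c, x = 0 := by
    intro c hc m x hx
    have h1 : R.tot q c = ⊥ := by
      by_contra h2
      have := hT0 c h2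
      omega
    have h2 := exc_le_tot m c hx
    rw [h1] at h2
    exact (Submodule.mem_bot Ω).1 h2
  have hall : ∀ n t : ℕ, T0 < t + n → D R q t := by
    intro n
    induction n with
    | zero =>
      intro t ht
      refine ⟨fun m y hy => ⟨0, zero_mem _, ?_⟩, fun m x hx _ => ?_⟩
      · rw [hbot _ (by simpa using ht) m y hy, map_zero]
      · exact hbot _ (by simpa using ht) m x hx
    | succ n ih => exact fun t ht => D_step hq hR hP hS hC (ih (t + 2) (by omega))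
  intro m
  rw [mwPure_iff hq hR]
  intro a
  have h1 := hall (T0 + 1) a (by omega)
  exact ⟨h1.2 m, h1.1 m⟩

end Pool.Agent.U644.LT
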